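import Pool.Agent.H.MP_722786_an.Defs

open MeasureTheory Matrix Set
open scoped ENNReal

namespace Pool.Agent.H.MP_722786_an

theorem sep {R : Type} [Fintype R] [Nonempty R] (Z : Set (R → ℝ)) (hZ : Convex ℝ Z) (h0 : 0 ∉ Z) :
    ∃ u : R → ℝ, u ≠ 0 ∧ ∀ z ∈ Z, 0 ≤ u ⬝ᵥ z := by
  classical
  suffices ∃ f : (R → ℝ) →ₗ[ℝ] ℝ, f ≠ 0 ∧ ∀ z ∈ Z, 0 ≤ f z by
    obtain ⟨f, f0, h⟩ := this
    have e : ∀ z, f z = (fun r => f fun j => if r = j then 1 else 0) ⬝ᵥ z := fun z => by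
      rw [f.pi_apply_eq_sum_univ, dotProduct_comm]; rfl
    exact ⟨_, fun h => f0 (LinearMap.ext fun z => by rw [e, h]; simp), fun z hz => e z ▸ h z hz⟩
  rcases Z.eq_empty_or_nonempty with rfl | ⟨z, hz⟩
  · exact ⟨LinearMap.proj (Classical.arbitrary R), fun h => by simpa using LinearMap.congr_fun h 1, by simp⟩
  by_cases i : (interior Z).Nonempty
  · obtain ⟨f, f0, h⟩ := geometric_hahn_banach_of_nonempty_interior_point hZ (fun h => h0 (interior_subset h)) i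
    exact ⟨-f.toLinearMap, fun e => f0 (ContinuousLinearMap.coe_injective (neg_eq_zero.1 e)), fun z hz => by
      simpa using h z hz⟩
  · rw [hZ.interior_nonempty_iff_affineSpan_eq_top,
      ← AffineSubspace.direction_eq_top_iff_of_nonempty ⟨z, mem_affineSpan ℝ hz⟩, direction_affineSpan] at i
    obtain ⟨f, f0, h⟩ := Submodule.exists_le_ker_of_lt_top _ (lt_top_iff_ne_top.2 i)
    have c : ∀ w ∈ Z, f w = f z := fun w hw => by
      simpa [sub_eq_zero] using h (vsub_mem_vectorSpan ℝ hw hz)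
    rcases le_total 0 (f z) with p | p
    · exact ⟨f, f0, fun w hw => c w hw ▸ p⟩
    · exact ⟨-f, neg_ne_zero.2 f0, fun w hw => by simpa [c w hw] using p⟩

theorem normalize {S : Type} [Fintype S] (x : S → ℝ) (h : x ≠ 0) :
    ∃ t : ℝ, 0 < t ∧ ∃ s, |t * x s| = 1 ∧ ∀ s', |t * x s'| ≤ 1 := by
  obtain ⟨r, hr⟩ := Function.ne_iff.1 h
  have : Nonempty S := ⟨r⟩
  obtain ⟨s, hs⟩ := Finite.exists_max fun s => |x s|
  have p : 0 < |x s| := (abs_pos.2 hr).trans_le (hs r)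
  refine ⟨|x s|⁻¹, inv_pos.2 p, s, ?_, fun s' => ?_⟩ <;> rw [abs_mul, abs_inv, abs_abs]
  · exact inv_mul_cancel₀ p.ne'
  · exact inv_mul_le_one_of_le₀ (hs s') p.le

def sgn (b : Bool) : ℝ := if b then 1 else -1

theorem ex_sgn {a : ℝ} (h : |a| = 1) : ∃ b, a = sgn b := by
  rcases (abs_eq zero_le_one).1 h with h | h
  exacts [⟨true, h⟩, ⟨false, h⟩]

theorem slab {ι : Type} [Fintype ι] [DecidableEq ι] (μ : ι → Measure ℝ) [∀ k, IsProbabilityMeasure (μ k)] (c : ℝ≥0∞)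
    (hμ : ∀ k s, μ k s ≤ c * volume s) (T : Set (ι → ℝ)) (o : IsOpen T) (k : ι)
    (cv : ∀ d, Convex ℝ {t | Function.update d k t ∈ T}) (l : ℝ) :
    Measure.pi μ {d | d ∈ T ∧ d + Pi.single k l ∉ T} ≤ c * ENNReal.ofReal |l| := by
  have m : MeasurableSet {d | d ∈ T ∧ d + Pi.single k l ∉ T} :=
    o.measurableSet.inter (o.measurableSet.preimage (measurable_add_const _)).compl
  rw [← lintegral_indicator_one m]
  refine (lintegral_le_of_lmarginal_le {k} (measurable_one.indicator m) measurable_const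
    (g := fun _ => c * ENNReal.ofReal |l|) fun d => ?_).trans (by simp)
  simp only [lmarginal_singleton, lintegral_const, measure_univ, mul_one]
  refine (lintegral_indicator_one_le (μ := μ k) (Function.update d k ⁻¹' {d | d ∈ T ∧ d + Pi.single k l ∉ T})).trans
    ((hμ k _).trans (mul_le_mul_right ((Real.volume_le_diam _).trans (Metric.ediam_le fun a ha b hb => ?_)) c))
  have e : ∀ t, Function.update d k t + Pi.single k l = Function.update d k (t + l) := fun t => by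
    ext j; by_cases h : j = k <;> simp [h]
  simp only [mem_preimage, mem_setOf_eq, e] at ha hb
  rw [edist_dist, Real.dist_eq]
  refine ENNReal.ofReal_le_ofReal (not_lt.1 fun h => ?_)
  have q := (cv d).ordConnected
  rcases lt_abs.1 h with h | h <;> rcases le_total 0 l with p | p
  · rw [abs_of_nonneg p] at h; exact hb.2 (q.out hb.1 ha.1 ⟨by linarith, by linarith⟩)
  · rw [abs_of_nonpos p] at h; exact ha.2 (q.out hb.1 ha.1 ⟨by linarith, by linarith⟩)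
  · rw [abs_of_nonneg p] at h; exact ha.2 (q.out ha.1 hb.1 ⟨by linarith, by linarith⟩)
  · rw [abs_of_nonpos p] at h; exact hb.2 (q.out ha.1 hb.1 ⟨by linarith, by linarith⟩)

def Cone {S : Type} (X : Set (S → ℝ)) : Prop := Convex ℝ X ∧ ∀ t : ℝ, 0 < t → ∀ x ∈ X, t • x ∈ X

def M {ι R S : Type} (e : R × S → ι) (sg : R × S → ℝ) (d : ι → ℝ) : Matrix R S ℝ := fun r s => sg (r, s) * d (e (r, s))

theorem M_add {ι R S : Type} (e : R × S → ι) (sg : R × S → ℝ) (d d' : ι → ℝ) :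
    M e sg (d + d') = M e sg d + M e sg d' := by ext; simp [M, mul_add]

theorem M_single {ι R S : Type} [DecidableEq ι] [DecidableEq R] [Fintype S] {e : R × S → ι} (he : e.Injective)
    (sg : R × S → ℝ) (p : R × S) (l : ℝ) (x : S → ℝ) :
    M e sg (Pi.single (e p) l) *ᵥ x = Pi.single p.1 (sg p * l * x p.2) := by
  ext r
  rw [mulVec, dotProduct, Finset.sum_eq_single p.2 (fun s _ h => by
    rw [M, Pi.single_eq_of_ne (he.ne fun e => h (congrArg Prod.snd e))]; simp) (by simp), M]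
  by_cases h : r = p.1
  · simp [h]
  · rw [Pi.single_eq_of_ne (he.ne fun e => h (congrArg Prod.fst e)), Pi.single_eq_of_ne h]; simp

section
variable {ι R S : Type} [Fintype R] [Fintype S] (e : R × S → ι) (sg : R × S → ℝ) (X : Set (S → ℝ)) (Y : Set (R → ℝ))

def T (η : ℝ) (s : S) (τ : ℝ) : Set (ι → ℝ) := {d | ∃ x ∈ X, x s = τ ∧ ∃ y ∈ Y, ∀ r, |(M e sg d *ᵥ x - y) r| < η}

theorem T_open (η : ℝ) (s : S) (τ : ℝ) : IsOpen (T e sg X Y η s τ) := by
  refine isOpen_iff_forall_mem_open.2 fun d ⟨x, x1, x2, y, y1, h⟩ =>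
    ⟨⋂ r, {d | |(M e sg d *ᵥ x - y) r| < η}, fun d' h' => ⟨x, x1, x2, y, y1, fun r => by simpa using mem_iInter.1 h' r⟩,
      isOpen_iInter_of_finite fun r => isOpen_lt ?_ continuous_const, mem_iInter.2 h⟩
  simp only [M, mulVec, dotProduct, Pi.sub_apply]
  fun_prop

theorem T_cv [DecidableEq ι] (he : e.Injective) (cX : Cone X) (cY : Cone Y) (η : ℝ) (p : R × S) (τ : ℝ) (d : ι → ℝ) :
    Convex ℝ {t | Function.update d (e p) t ∈ T e sg X Y η p.2 τ} := by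
  classical
  rintro t ⟨x, x1, x2, y, y1, h⟩ t' ⟨x', x1', x2', y', y1', h'⟩ a b a0 b0 ab
  have u : ∀ t, Function.update d (e p) t = Function.update d (e p) 0 + Pi.single (e p) t := fun t => by
    ext j; by_cases h : j = e p <;> simp [h]
  have x3 : (a • x + b • x') p.2 = τ := by simp [x2, x2', ← add_mul, ab]
  refine ⟨a • x + b • x', cX.1 x1 x1' a0 b0 ab, x3, a • y + b • y', cY.1 y1 y1' a0 b0 ab, fun r => ?_⟩
  have := (convex_Ioo (𝕜 := ℝ) (-η) η) (abs_lt.1 (h r)) (abs_lt.1 (h' r)) a0 b0 ab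
  refine lt_of_eq_of_lt (congrArg _ ?_) (abs_lt.2 this)
  rw [u t, u t', u (a • t + b • t')]
  simp only [M_add, add_mulVec, M_single he, x2, x2', x3]
  simp only [mulVec_add, mulVec_smul, Pi.sub_apply, Pi.add_apply, Pi.smul_apply, smul_eq_mul, Pi.single_apply]
  split_ifs <;> ring

def Bad (δ : ℝ) : Set (ι → ℝ) :=
  {d | (∃ Δ : ι → ℝ, (∀ k, |Δ k| ≤ δ) ∧ ∃ x ∈ X, x ≠ 0 ∧ M e sg (d + Δ) *ᵥ x ∈ Y) ∧
    ∃ u : R → ℝ, u ≠ 0 ∧ ∀ x ∈ X, ∀ y ∈ Y, 0 ≤ u ⬝ᵥ (M e sg d *ᵥ x - y)}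

theorem cover [DecidableEq ι] (he : e.Injective) (hs : ∀ p, |sg p| = 1) (cX : Cone X) (cY : Cone Y)
    (δ : ℝ) (δ0 : 0 < δ) (N : ℝ) (hR : Fintype.card R < N) (hS : Fintype.card S < N) (d : ι → ℝ)
    (hd : d ∈ Bad e sg X Y δ) : ∃ q : (R × S) × Bool × Bool, d ∈ T e sg X Y (N * δ) q.1.2 (sgn q.2.1) ∧
      d + Pi.single (e q.1) (sgn q.2.2 * (N ^ 2 * δ)) ∉ T e sg X Y (N * δ) q.1.2 (sgn q.2.1) := by
  classical
  obtain ⟨⟨Δ, hΔ, x, x1, x0, hx⟩, u, u0, hu⟩ := hd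
  have N0 : 0 < N := (Nat.cast_nonneg _).trans_lt hR
  obtain ⟨t, t0, s, t1, t2⟩ := normalize x x0
  obtain ⟨w, w0, r, w1, w2⟩ := normalize u u0
  obtain ⟨τ, hτ⟩ := ex_sgn t1
  obtain ⟨κ, hκ⟩ := ex_sgn (a := sg (r, s) * (t * x s) * (w * u r)) (by rw [abs_mul, abs_mul, hs, t1, w1]; norm_num)
  refine ⟨((r, s), τ, κ), ⟨t • x, cX.2 t t0 x x1, hτ, _, cY.2 t t0 _ hx, fun r' => ?_⟩, ?_⟩
  · rw [← mulVec_smul, M_add, add_mulVec, sub_add_cancel_left, Pi.neg_apply, abs_neg]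
    refine (Finset.abs_sum_le_sum_abs _ _).trans_lt ((Finset.sum_le_card_nsmul _ _ δ fun s' _ => ?_).trans_lt ?_)
    · simp only [M]
      rw [abs_mul, abs_mul, hs, one_mul]
      exact (mul_le_of_le_one_right (abs_nonneg _) (t2 s')).trans (hΔ _)
    · rw [nsmul_eq_mul]; exact mul_lt_mul_of_pos_right hS δ0
  · rintro ⟨x', x1', x2', y, y1, h⟩
    have h1 := mul_nonneg w0.le (hu x' x1' y y1)
    have h2 : (w • u) ⬝ᵥ (M e sg (d + Pi.single (e (r, s)) (sgn κ * (N ^ 2 * δ))) *ᵥ x' - y) ≤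
        Fintype.card R * (N * δ) := by
      rw [← nsmul_eq_mul]
      refine Finset.sum_le_card_nsmul _ _ _ fun r' _ => (le_abs_self _).trans ?_
      rw [abs_mul]
      exact (mul_le_of_le_one_left (abs_nonneg _) (w2 r')).trans (h r').le
    simp only at x2'
    rw [M_add, add_mulVec, M_single he, add_sub_right_comm, dotProduct_add, smul_dotProduct, dotProduct_single,
      x2', ← hτ, ← hκ, Pi.smul_apply, smul_eq_mul, smul_eq_mul] at h2
    have h3 := mul_lt_mul_of_pos_right hR (mul_pos N0 δ0)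
    have e1 := sq_abs (sg (r, s))
    have e2 := sq_abs (t * x s)
    have e3 := sq_abs (w * u r)
    rw [hs] at e1; rw [t1] at e2; rw [w1] at e3
    have : w * u r * (sg (r, s) * (sg (r, s) * (t * x s) * (w * u r) * (N ^ 2 * δ)) * (t * x s)) =
        sg (r, s) ^ 2 * (t * x s) ^ 2 * (w * u r) ^ 2 * (N ^ 2 * δ) := by ring
    rw [← e1, ← e2, ← e3] at this
    linarith

theorem core [Fintype ι] [DecidableEq ι] (he : e.Injective) (hs : ∀ p, |sg p| = 1) (cX : Cone X) (cY : Cone Y)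
    (μ : ι → Measure ℝ) [∀ k, IsProbabilityMeasure (μ k)] (c : ℝ≥0∞) (hμ : ∀ k s, μ k s ≤ c * volume s)
    (δ : ℝ) (δ0 : 0 < δ) (N : ℕ) (hR : Fintype.card R < N) (hS : Fintype.card S < N) :
    Measure.pi μ (Bad e sg X Y δ) ≤ (4 * N ^ 2 : ℕ) * (c * ENNReal.ofReal (N ^ 2 * δ)) := by
  have h1 := measure_mono (μ := Measure.pi μ) fun d hd => mem_iUnion.2
    (cover e sg X Y he hs cX cY δ δ0 N (Nat.cast_lt.2 hR) (Nat.cast_lt.2 hS) d hd :
      ∃ q : (R × S) × Bool × Bool, d ∈ {d | d ∈ T e sg X Y (N * δ) q.1.2 (sgn q.2.1) ∧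
      d + Pi.single (e q.1) (sgn q.2.2 * (N ^ 2 * δ)) ∉ T e sg X Y (N * δ) q.1.2 (sgn q.2.1)})
  refine h1.trans ((measure_iUnion_fintype_le _ _).trans ((Finset.sum_le_card_nsmul _ _
    (c * ENNReal.ofReal (N ^ 2 * δ)) fun q _ => ?_).trans ?_))
  · have := slab μ c hμ _ (T_open e sg X Y (N * δ) q.1.2 (sgn q.2.1)) _ (T_cv e sg X Y he cX cY _ q.1 _)
      (sgn q.2.2 * (N ^ 2 * δ))
    rwa [abs_mul, show |sgn q.2.2| = 1 by cases q.2.2 <;> simp [sgn], one_mul, abs_of_nonneg (by positivity)] at this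
  · rw [nsmul_eq_mul]
    refine mul_le_mul_left (Nat.cast_le.2 ?_) _
    simp only [Finset.card_univ, Fintype.card_prod, Fintype.card_bool]
    nlinarith [Nat.mul_le_mul hR.le hS.le]

end

end Pool.Agent.H.MP_722786_an
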