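import Pool.Agent.H.MP_722786_an.A

open MeasureTheory Matrix Set ProbabilityTheory
open scoped ENNReal NNReal

namespace Pool.Agent.H.MP_722786_an

section
variable {ι R S : Type} [Fintype R] [Fintype S]

theorem sepF [Nonempty R] {X : Set (S → ℝ)} {Y : Set (R → ℝ)} (cX : Cone X) (cY : Cone Y) (W : Matrix R S ℝ)
    (h : ¬∃ x ∈ X, W *ᵥ x ∈ Y) : ∃ u : R → ℝ, u ≠ 0 ∧ ∀ x ∈ X, ∀ y ∈ Y, 0 ≤ u ⬝ᵥ (W *ᵥ x - y) := by
  obtain ⟨u, u0, hu⟩ := sep _ ((cX.1.linear_image W.mulVecLin).sub cY.1) (by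
    rintro ⟨_, ⟨x, hx, rfl⟩, y, hy, e⟩
    exact h ⟨x, hx, (sub_eq_zero.1 e : W *ᵥ x = y).symm ▸ hy⟩)
  exact ⟨u, u0, fun x hx y hy => hu _ ⟨_, ⟨x, hx, rfl⟩, y, hy, rfl⟩⟩

theorem cone_pos (X : Set (S → ℝ)) : Cone {v | ∀ x ∈ X, 0 ≤ v ⬝ᵥ x} :=
  ⟨fun u hu v hv a b a0 b0 _ x hx => by
    rw [add_dotProduct, smul_dotProduct, smul_dotProduct]
    exact add_nonneg (smul_nonneg a0 (hu x hx)) (smul_nonneg b0 (hv x hx)),
  fun t t0 u hu x hx => by rw [smul_dotProduct]; exact smul_nonneg t0.le (hu x hx)⟩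

theorem flip [Nonempty R] (e : R × S → ι) (sg : R × S → ℝ) {X : Set (S → ℝ)} {Y : Set (R → ℝ)} (cX : Cone X)
    (cY : Cone Y) (X0 : 0 ∉ X) (Y0 : 0 ∈ Y) (δ : ℝ) (d Δ : ι → ℝ) (hΔ : ∀ k, |Δ k| ≤ δ)
    (h : ¬((∃ x ∈ X, M e sg (d + Δ) *ᵥ x ∈ Y) ↔ ∃ x ∈ X, M e sg d *ᵥ x ∈ Y)) : d ∈ Bad e sg X Y δ ∪
      Bad (e ∘ Prod.swap) (sg ∘ Prod.swap) {u | ∀ y ∈ -Y, 0 ≤ u ⬝ᵥ y} {v | ∀ x ∈ X, 0 ≤ v ⬝ᵥ x} δ := by
  have t : ∀ d, M (e ∘ Prod.swap) (sg ∘ Prod.swap) d = (M e sg d)ᵀ := fun _ => rfl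
  by_cases c : ∃ x ∈ X, M e sg d *ᵥ x ∈ Y
  · obtain ⟨u, u0, hu⟩ := sepF cX cY (M e sg (d + Δ)) fun c' => h (iff_of_true c' c)
    obtain ⟨x, x1, x2⟩ := c
    refine .inr ⟨⟨Δ, hΔ, u, fun y hy => ?_, u0, fun x hx => ?_⟩, -x, neg_ne_zero.2 fun e => X0 (e ▸ x1),
      fun u hu v hv => ?_⟩
    · by_contra! n
      have := hu x x1 _ (cY.2 ((|u ⬝ᵥ M e sg (d + Δ) *ᵥ x| + 1) / -(u ⬝ᵥ y)) (div_pos (by positivity) (by linarith)) _ hy)
      rw [dotProduct_sub, dotProduct_smul, dotProduct_neg, smul_eq_mul, div_mul_cancel₀ _ (by linarith)] at this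
      linarith [le_abs_self (u ⬝ᵥ M e sg (d + Δ) *ᵥ x)]
    · simpa [t, mulVec_transpose, dotProduct_mulVec] using hu x hx 0 Y0
    · have h1 := hu (-(M e sg d *ᵥ x)) (by simpa using x2)
      have h2 := hv x x1
      rw [dotProduct_neg, dotProduct_mulVec] at h1
      rw [t, mulVec_transpose, neg_dotProduct, dotProduct_comm, sub_dotProduct]
      linarith
  · obtain ⟨x, x1, x2⟩ : ∃ x ∈ X, M e sg (d + Δ) *ᵥ x ∈ Y := by_contra fun c' => h (iff_of_false c' c)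
    exact .inl ⟨⟨Δ, hΔ, x, x1, fun e => X0 (e ▸ x1), x2⟩, sepF cX cY _ c⟩

def hom (C : Set (S → ℝ)) : Set (Option S → ℝ) := {x | x ∘ some ∈ C ∧ 0 < x none}

omit [Fintype S] in
theorem hom_cone {C : Set (S → ℝ)} (h : Cone C) : Cone (hom C) :=
  ⟨fun _ hx _ hy _ _ a0 b0 ab => ⟨h.1 hx.1 hy.1 a0 b0 ab, convex_Ioi (𝕜 := ℝ) (0 : ℝ) hx.2 hy.2 a0 b0 ab⟩,
    fun t t0 _ hx => ⟨h.2 t t0 _ hx.1, mul_pos t0 hx.2⟩⟩

omit [Fintype R] in
theorem hom_iff {C : Set (S → ℝ)} {Y : Set (R → ℝ)} (h : Cone C) (cY : Cone Y) (W : Matrix R (Option S) ℝ) :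
    (∃ x ∈ hom C, W *ᵥ x ∈ Y) ↔ ∃ x ∈ C, (fun r => W r none + ∑ s, W r (some s) * x s) ∈ Y := by
  constructor
  · rintro ⟨x, ⟨x1, x2⟩, x3⟩
    refine ⟨_, h.2 _ (inv_pos.2 x2) _ x1, ?_⟩
    convert cY.2 _ (inv_pos.2 x2) _ x3 using 1
    ext r
    simp [mulVec, dotProduct, Fintype.sum_option, mul_add, Finset.mul_sum, mul_left_comm, x2.ne']
  · rintro ⟨x, x1, x2⟩
    refine ⟨fun o => o.elim 1 x, ⟨x1, one_pos⟩, ?_⟩
    convert x2 using 1
    ext r
    simp [mulVec, dotProduct, Fintype.sum_option]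

theorem flip_le [Nonempty R] [Fintype ι] [DecidableEq ι] (e : R × Option S → ι) (he : e.Injective)
    (sg : R × Option S → ℝ) (hs : ∀ p, |sg p| = 1) {C : Set (S → ℝ)} {Y : Set (R → ℝ)} (cC : Cone C) (cY : Cone Y)
    (Y0 : 0 ∈ Y) (μ : ι → Measure ℝ) [∀ k, IsProbabilityMeasure (μ k)] (c : ℝ≥0∞) (hμ : ∀ k s, μ k s ≤ c * volume s)
    (δ : ℝ) (δ0 : 0 < δ) (N : ℕ) (hR : Fintype.card R < N) (hS : Fintype.card S + 1 < N) (F : (ι → ℝ) → Prop)
    (hF : ∀ d, F d ↔ ∃ x ∈ C, (fun r => M e sg d r none + ∑ s, M e sg d r (some s) * x s) ∈ Y) :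
    Measure.pi μ {d | ∃ Δ : ι → ℝ, (∀ k, |Δ k| ≤ δ) ∧ ¬(F (d + Δ) ↔ F d)} ≤
      2 * ((4 * N ^ 2 : ℕ) * (c * ENNReal.ofReal (N ^ 2 * δ))) := by
  rw [← Fintype.card_option] at hS
  simp only [hF, ← hom_iff cC cY]
  rw [two_mul]
  refine (measure_mono ?_).trans
    ((measure_union_le _ _).trans (add_le_add (core _ _ _ _ he hs (hom_cone cC) cY μ c hμ δ δ0 N hR hS)
      (core _ (sg ∘ Prod.swap) _ _ (he.comp Prod.swap_injective) (fun _ => hs _) (cone_pos (-Y)) (cone_pos (hom C)) μ c hμ δ δ0 N hS hR)))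
  rintro d ⟨Δ, h1, h2⟩
  exact flip e sg (hom_cone cC) cY (fun h => h.2.false) Y0 δ d Δ h1 h2

end

variable {m n : ℕ} {C₁ : Set (Fin m → ℝ)} {C₂ : Set (Fin n → ℝ)}

theorem IsCone.cone {k : ℕ} {C : Set (Fin k → ℝ)} (h : IsCone C) : Cone C := ⟨h.2.1, fun t t0 => h.2.2.2 t t0.le⟩

theorem gauss_le (a : ℝ) (σ : ℝ≥0) (σ0 : 0 < σ) (s : Set ℝ) :
    gaussianReal a (σ ^ 2) s ≤ ENNReal.ofReal (σ : ℝ)⁻¹ * volume s := by
  rw [gaussianReal_apply _ (by positivity), ← setLIntegral_const]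
  refine lintegral_mono fun x => ENNReal.ofReal_le_ofReal ?_
  have : (0 : ℝ) < σ := σ0
  refine (mul_le_of_le_one_right (by positivity) (Real.exp_le_one_iff.2 (div_nonpos_of_nonpos_of_nonneg
    (neg_nonpos.2 (sq_nonneg _)) (by positivity)))).trans (inv_anti₀ this (Real.le_sqrt_of_sq_le ?_))
  push_cast
  nlinarith [Real.pi_gt_three, sq_nonneg (σ : ℝ)]

theorem le_fro (d : Idx m n → ℝ) (k) : |d k| ≤ fro d :=
  Real.abs_le_sqrt (Finset.single_le_sum (f := fun k => d k ^ 2) (fun _ _ => sq_nonneg _) (Finset.mem_univ k))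

instance (d : Idx m n → ℝ) (σ : ℝ≥0) : IsProbabilityMeasure (pert d σ) := by unfold pert; infer_instance

theorem le_rho {d : Idx m n → ℝ} {δ : ℝ≥0} (h : Stable C₁ C₂ d δ) : δ ≤ rho C₁ C₂ d := le_iSup₂_of_le δ h le_rfl

theorem tail (h1 : IsCone C₁) (h2 : IsCone C₂) (m0 : 0 < m) (n0 : 0 < n) (d₀ : Idx m n → ℝ) (σ : ℝ≥0) (σ0 : 0 < σ)
    (δ : ℝ≥0) (δ0 : 0 < δ) :
    pert d₀ σ {d | rho C₁ C₂ d < δ} ≤ ENNReal.ofReal (16 * (3 * m * n) ^ 4 / σ * δ) := by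
  have : Nonempty (Fin m) := ⟨⟨0, m0⟩⟩
  have : Nonempty (Fin n) := ⟨⟨0, n0⟩⟩
  have a := flip_le (fun p : Fin m × Option (Fin n) => (p.2.elim (.inr (.inl p.1)) fun j => .inl (p.1, j) : Idx m n))
    (by rintro ⟨i, _ | j⟩ ⟨i', _ | j'⟩ <;> simp) (fun p => p.2.elim (-1) fun _ => 1) (by rintro ⟨i, _ | j⟩ <;> simp)
    h2.cone h1.cone h1.2.2.1 _ _ (fun k => gauss_le (d₀ k) σ σ0) δ δ0 (3 * m * n) (by simp; nlinarith)
    (by simp; nlinarith) (FeasP C₁ C₂) fun d => exists_congr fun x => and_congr_right fun _ => by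
      congr! 1; ext r; simp [M, mulVec, dotProduct, matA, vecB]; ring
  have b := flip_le (fun p : Fin n × Option (Fin m) => (p.2.elim (.inr (.inr p.1)) fun i => .inl (i, p.1) : Idx m n))
    (by rintro ⟨i, _ | j⟩ ⟨i', _ | j'⟩ <;> simp [and_comm]) (fun p => p.2.elim 1 fun _ => -1)
    (by rintro ⟨i, _ | j⟩ <;> simp) (cone_pos C₁) (cone_pos C₂) (by simp) _ _ (fun k => gauss_le (d₀ k) σ σ0) δ δ0
    (3 * m * n) (by simp; nlinarith) (by simp; nlinarith) (FeasD C₁ C₂) fun d =>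
      exists_congr fun x => and_congr_right fun _ => by
        rw [dual]; congr! 1; ext r; simp [M, mulVec, dotProduct, matA, vecC]; ring
  refine (measure_mono fun d hd => ?_).trans ((measure_union_le _ _).trans ((add_le_add a b).trans_eq ?_))
  · have : ¬Stable C₁ C₂ d δ := fun h => (le_rho h).not_gt hd
    simp only [Stable, not_forall, not_and_or] at this
    obtain ⟨Δ, h, h'⟩ := this
    exact h'.imp (fun c => ⟨Δ, fun k => (le_fro Δ k).trans h, c⟩) fun c => ⟨Δ, fun k => (le_fro Δ k).trans h, c⟩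
  · rw [← two_mul, ← ENNReal.ofReal_natCast, ← ENNReal.ofReal_ofNat, ← ENNReal.ofReal_mul (by positivity),
      ← ENNReal.ofReal_mul (by positivity), ← ENNReal.ofReal_mul (by positivity), ← ENNReal.ofReal_mul (by positivity)]
    congr 1; push_cast; ring

theorem fro_add (a b : Idx m n → ℝ) : fro (a + b) ≤ fro a + fro b := by
  have e : ∀ d : Idx m n → ℝ, fro d = ‖(WithLp.toLp 2 d : EuclideanSpace ℝ _)‖ := fun d => by
    simp [fro, EuclideanSpace.norm_eq]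
  rw [e, e, e]; exact norm_add_le (WithLp.toLp 2 a : EuclideanSpace ℝ _) _

theorem fro_cont : Continuous (fro (m := m) (n := n)) := by unfold fro; fun_prop

theorem rho_meas : Measurable (rho C₁ C₂) := measurable_of_Ioi fun r => IsOpen.measurableSet <|
  isOpen_iff_forall_mem_open.2 fun d hd => by
    obtain ⟨δ, h⟩ := lt_iSup_iff.1 (show r < ⨆ (δ : ℝ≥0) (_ : Stable C₁ C₂ d δ), (δ : ℝ≥0∞) from hd)
    obtain ⟨s, h⟩ := lt_iSup_iff.1 h
    obtain ⟨ε, h1, h2⟩ := ENNReal.lt_iff_exists_nnreal_btwn.1 h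
    have h2 : (ε : ℝ) < δ := by exact_mod_cast h2
    refine ⟨{d' | fro (d' - d) < δ - ε}, fun d' h' => h1.trans_le (le_rho fun Δ hΔ => ?_),
      isOpen_lt (fro_cont.comp (by fun_prop)) continuous_const, by simpa [fro] using h2⟩
    have h' : fro (d' - d) < δ - ε := h'
    have a := s (d' - d) (by linarith [ε.2])
    have b := s (d' - d + Δ) (by linarith [fro_add (d' - d) Δ])
    rw [← add_assoc] at b
    rw [add_sub_cancel] at a b
    exact ⟨b.1.trans a.1.symm, b.2.trans a.2.symm⟩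

theorem cond_meas : Measurable (condNum C₁ C₂) :=
  Measurable.ite (rho_meas (measurableSet_singleton 0)) measurable_const
    (fro_cont.measurable.ennreal_ofReal.div rho_meas)

theorem point (d : Idx m n → ℝ) (T : ℝ) (T0 : 0 < T) (a : ℝ≥0) (a0 : 0 < a) :
    logPos (condNum C₁ C₂ d) ≤ ENNReal.ofReal (Real.log (T / a)) + ∑ k, ENNReal.ofReal (d k ^ 2 / T ^ 2) +
      ∑' j : ℕ, {d | rho C₁ C₂ d < (a / 2 ^ j : ℝ≥0)}.indicator 1 d := by
  rw [condNum]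
  split_ifs with h
  · rw [tsum_congr fun j => indicator_of_mem (by simp only [mem_setOf_eq, h]; norm_cast; positivity) _]
    simp
  have ex : ∃ j : ℕ, (a / 2 ^ j : ℝ≥0) ≤ rho C₁ C₂ d := by
    obtain ⟨ε, e0, e1⟩ := ENNReal.lt_iff_exists_nnreal_btwn.1 (pos_iff_ne_zero.2 h)
    obtain ⟨j, hj⟩ := pow_unbounded_of_one_lt (a / ε) (one_lt_two (α := ℝ≥0))
    rw [div_lt_iff₀ (by simpa using e0), mul_comm, ← div_lt_iff₀ (by positivity)] at hj
    exact ⟨j, (ENNReal.coe_le_coe.2 hj.le).trans e1.le⟩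
  have j1 := Nat.find_spec ex
  have j2 : (Nat.find ex : ℝ≥0∞) ≤ ∑' j : ℕ, {d | rho C₁ C₂ d < (a / 2 ^ j : ℝ≥0)}.indicator 1 d := by
    refine le_trans ?_ (ENNReal.sum_le_tsum (Finset.range (Nat.find ex)))
    rw [Finset.sum_congr rfl fun j hj => indicator_of_mem (s := {d | rho C₁ C₂ d < (a / 2 ^ j : ℝ≥0)})
      (not_le.1 (Nat.find_min ex (Finset.mem_range.1 hj))) _]
    simp
  generalize Nat.find ex = J at *
  have a1 : (0 : ℝ) < a := a0
  have k : ENNReal.ofReal (fro d) / rho C₁ C₂ d ≤ ENNReal.ofReal (Real.exp (Real.log (T / a) + fro d ^ 2 / T ^ 2 + J)) := by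
    refine (ENNReal.div_le_div_left j1 _).trans ?_
    rw [← ENNReal.ofReal_coe_nnreal, ← ENNReal.ofReal_div_of_pos (by positivity), Real.exp_add, Real.exp_add,
      Real.exp_log (by positivity), ← mul_one (J : ℝ), Real.exp_nat_mul, ← div_pow]
    refine ENNReal.ofReal_le_ofReal ?_
    rw [show fro d / (a / 2 ^ J : ℝ≥0) = T / a * (fro d / T) * 2 ^ J by push_cast; field_simp]
    have := Real.add_one_le_exp ((fro d / T) ^ 2)
    have := Real.add_one_le_exp 1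
    gcongr
    · nlinarith [sq_nonneg (fro d / T - 1)]
    · linarith
  refine (EReal.toENNReal_le_toENNReal (ENNReal.log_le_log k)).trans ?_
  rw [ENNReal.log_ofReal_of_pos (Real.exp_pos _), Real.log_exp, EReal.real_coe_toENNReal]
  refine ENNReal.ofReal_add_le.trans (add_le_add (ENNReal.ofReal_add_le.trans (add_le_add_right (le_of_eq ?_) _))
    (by simpa using j2))
  rw [fro, Real.sq_sqrt (by positivity), Finset.sum_div, ENNReal.ofReal_sum_of_nonneg fun _ _ => by positivity]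

theorem second (d₀ : Idx m n → ℝ) (σ : ℝ≥0) (T : ℝ) (k) :
    ∫⁻ d, ENNReal.ofReal (d k ^ 2 / T ^ 2) ∂pert d₀ σ = ENNReal.ofReal ((d₀ k ^ 2 + σ ^ 2) / T ^ 2) := by
  have h := (measurePreserving_eval (fun k => gaussianReal (d₀ k) (σ ^ 2)) k).lintegral_comp
    (f := fun x => ENNReal.ofReal (x ^ 2 / T ^ 2)) (by fun_prop)
  have l := memLp_id_gaussianReal (μ := d₀ k) (v := σ ^ 2) 2
  have v := variance_eq_sub l
  rw [variance_id_gaussianReal] at v
  simp only [Pi.pow_apply, id, integral_id_gaussianReal] at v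
  refine h.trans ?_
  rw [← ofReal_integral_eq_lintegral_ofReal (f := fun x => x ^ 2 / T ^ 2) (l.integrable_sq.div_const _)
    (ae_of_all _ fun _ => by positivity), integral_div]
  congr 2
  push_cast at v
  linarith

theorem final (h1 : IsCone C₁) (h2 : IsCone C₂) (m0 : 0 < m) (n0 : 0 < n) (d₀ : Idx m n → ℝ) (hd : fro d₀ ≤ 1)
    (σ : ℝ≥0) (σ0 : 0 < σ) (σ1 : σ ≤ 1) :
    ∫⁻ d, logPos (condNum C₁ C₂ d) ∂pert d₀ σ ≤ ENNReal.ofReal (6000 * (1 + Real.log (m * n / σ))) := by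
  have s0 : (0 : ℝ) < σ := σ0
  have s1 : (σ : ℝ) ≤ 1 := σ1
  have m1 : (1 : ℝ) ≤ m := by exact_mod_cast m0
  have n1 : (1 : ℝ) ≤ n := by exact_mod_cast n0
  have p1 : (1 : ℝ) ≤ m * n := one_le_mul_of_one_le_of_one_le m1 n1
  let a : ℝ≥0 := σ / (16 * (3 * m * n) ^ 4)
  have a0 : 0 < a := by positivity
  have ms : ∀ j : ℕ, MeasurableSet {d | rho C₁ C₂ d < (a / 2 ^ j : ℝ≥0)} := fun j => rho_meas measurableSet_Iio
  refine (lintegral_mono fun d => point d (4 * (m * n)) (by positivity) a a0).trans ?_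
  rw [lintegral_add_left (by fun_prop), lintegral_add_left measurable_const, lintegral_finset_sum _ fun _ _ => by fun_prop,
    lintegral_tsum fun j => (measurable_one.indicator (ms j)).aemeasurable]
  simp only [second, lintegral_indicator_one (ms _), lintegral_const, measure_univ, mul_one]
  have b1 : ∑' j : ℕ, pert d₀ σ {d | rho C₁ C₂ d < (a / 2 ^ j : ℝ≥0)} ≤ ENNReal.ofReal 2 := by
    rw [← tsum_geometric_two, ENNReal.ofReal_tsum_of_nonneg (fun _ => by positivity) summable_geometric_two]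
    refine ENNReal.tsum_le_tsum fun j => (tail h1 h2 m0 n0 d₀ σ σ0 _ (by positivity)).trans_eq ?_
    congr 1; simp only [a]; push_cast; rw [_root_.one_div_pow]; field_simp
  have b2 : ∑ k, (d₀ k ^ 2 + σ ^ 2) / (4 * (m * n : ℝ)) ^ 2 ≤ 1 := by
    rw [← Finset.sum_div, div_le_one (by positivity), Finset.sum_add_distrib]
    have := Real.sqrt_le_one.1 hd
    have : (σ : ℝ) ^ 2 ≤ 1 := pow_le_one₀ s0.le s1
    have : (m + n : ℝ) ≤ 2 * (m * n) := by nlinarith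
    simp only [Finset.sum_const, Finset.card_univ, Fintype.card_sum, Fintype.card_prod, Fintype.card_fin, nsmul_eq_mul]
    push_cast
    nlinarith
  have l0 : 0 ≤ Real.log (m * n / σ) := Real.log_nonneg ((one_le_div s0).2 (by linarith))
  have b3 : Real.log (4 * (m * n) / a) ≤ 5184 + 5 * Real.log (m * n / σ) := by
    have : (4 * (m * n) / a : ℝ) ≤ 5184 * (m * n / σ) ^ 5 := by
      rw [show (4 * (m * n) / a : ℝ) = 5184 * ((m * n) ^ 5 / σ) by simp only [a]; push_cast; field_simp; norm_num, div_pow]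
      gcongr
      exact pow_le_of_le_one s0.le s1 (by norm_num)
    refine (Real.log_le_log (by positivity) this).trans ?_
    rw [Real.log_mul (by norm_num) (by positivity), Real.log_pow]
    linarith [Real.log_le_self (show (0 : ℝ) ≤ 5184 by norm_num), show ((5 : ℕ) : ℝ) = 5 from rfl]
  rw [← ENNReal.ofReal_sum_of_nonneg fun _ _ => by positivity]
  refine (add_le_add (add_le_add (ENNReal.ofReal_le_ofReal b3) (ENNReal.ofReal_le_ofReal b2)) b1).trans ?_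
  rw [← ENNReal.ofReal_add (by positivity) zero_le_one, ← ENNReal.ofReal_add (by positivity) zero_le_two]
  exact ENNReal.ofReal_le_ofReal (by linarith)

end Pool.Agent.H.MP_722786_an
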