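import Mathlib

open MeasureTheory ProbabilityTheory Matrix
open scoped ENNReal NNReal

namespace Pool.Agent.H.MP_722786_an

/-- positions of the entries of the data `(A, b, c)` -/
abbrev Idx (m n : ℕ) := (Fin m × Fin n) ⊕ Fin m ⊕ Fin n

variable {m n : ℕ}

def matA (d : Idx m n → ℝ) : Matrix (Fin m) (Fin n) ℝ := fun i j => d (.inl (i, j))
def vecB (d : Idx m n → ℝ) : Fin m → ℝ := fun i => d (.inr (.inl i))
def vecC (d : Idx m n → ℝ) : Fin n → ℝ := fun j => d (.inr (.inr j))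

/-- Frobenius norm of all the entries -/
noncomputable def fro (d : Idx m n → ℝ) : ℝ := √(∑ k, d k ^ 2)

/-- closed convex cone -/
def IsCone {k : ℕ} (C : Set (Fin k → ℝ)) : Prop :=
  IsClosed C ∧ Convex ℝ C ∧ 0 ∈ C ∧ ∀ t : ℝ, 0 ≤ t → ∀ x ∈ C, t • x ∈ C

/-- dual cone -/
def dual {k : ℕ} (C : Set (Fin k → ℝ)) : Set (Fin k → ℝ) := {u | ∀ v ∈ C, 0 ≤ u ⬝ᵥ v}

variable (C₁ : Set (Fin m → ℝ)) (C₂ : Set (Fin n → ℝ))

def FeasP (d : Idx m n → ℝ) : Prop := ∃ x ∈ C₂, matA d *ᵥ x - vecB d ∈ C₁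
def FeasD (d : Idx m n → ℝ) : Prop := ∃ y ∈ dual C₁, vecC d - (matA d)ᵀ *ᵥ y ∈ dual C₂

/-- perturbations of size at most `δ` change neither feasibility status -/
def Stable (d : Idx m n → ℝ) (δ : ℝ≥0) : Prop :=
  ∀ Δ, fro Δ ≤ δ → (FeasP C₁ C₂ (d + Δ) ↔ FeasP C₁ C₂ d) ∧ (FeasD C₁ C₂ (d + Δ) ↔ FeasD C₁ C₂ d)

/-- distance to ill-posedness -/
noncomputable def rho (d : Idx m n → ℝ) : ℝ≥0∞ := ⨆ (δ : ℝ≥0) (_ : Stable C₁ C₂ d δ), (δ : ℝ≥0∞)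

/-- condition number -/
noncomputable def condNum (d : Idx m n → ℝ) : ℝ≥0∞ :=
  if rho C₁ C₂ d = 0 then ⊤ else ENNReal.ofReal (fro d) / rho C₁ C₂ d

/-- law of the `σ`-Gaussian perturbation of the data `d` -/
noncomputable def pert (d : Idx m n → ℝ) (σ : ℝ≥0) : Measure (Idx m n → ℝ) :=
  Measure.pi fun k => gaussianReal (d k) (σ ^ 2)

/-- positive part of the logarithm -/
noncomputable def logPos (x : ℝ≥0∞) : ℝ≥0∞ := (ENNReal.log x).toENNReal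

end Pool.Agent.H.MP_722786_an
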